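import Mathlib

/-! Block-additive (digital) functions: locality, quasi-additivity and independence of dilates. -/

set_option autoImplicit false

open Filter

namespace Pool.Agent.MP_b1aeef_nt.H23

variable {B : Type*} [AddCommGroup B]

/-- `h` is block additive in base `q` with window `L`. -/
structure Dig (q L : ℕ) (h : ℕ → B) : Prop where
  zero : h 0 = 0
  loc : ∀ n n' : ℕ, n ≡ n' [MOD q ^ L] → h n - h (n / q) = h n' - h (n' / q)

lemma modEq_div {q m n n' : ℕ} (_hq : 0 < q) (h : n ≡ n' [MOD q * m]) : n / q ≡ n' / q [MOD m] := by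
  unfold Nat.ModEq at *
  rw [← Nat.mod_mul_right_div_self, ← Nat.mod_mul_right_div_self, h]

lemma Dig.loc_pow {q L : ℕ} {h : ℕ → B} (hq : 0 < q) (H : Dig q L h) (j : ℕ) :
    ∀ n n' : ℕ, n ≡ n' [MOD q ^ (j + L)] → h n - h (n / q ^ j) = h n' - h (n' / q ^ j) := by
  induction j with
  | zero => intro n n' _; simp
  | succ j ih =>
    intro n n' hn
    have h1 : n ≡ n' [MOD q ^ L] := hn.of_dvd (pow_dvd_pow q (by omega))
    have h2 : n / q ≡ n' / q [MOD q ^ (j + L)] := by
      apply modEq_div hq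
      rwa [← pow_succ', show j + L + 1 = j + 1 + L by ring]
    have e1 := H.loc n n' h1
    have e2 := ih _ _ h2
    rw [Nat.div_div_eq_div_mul, Nat.div_div_eq_div_mul, ← pow_succ'] at e2
    linear_combination (norm := abel1) e1 + e2

/-- two sided block additive functions -/
structure Dig2 (q L : ℕ) (h : ℕ → B) : Prop extends Dig q L h where
  inv : ∀ n, h (q * n) = h n

lemma Dig2.inv_pow {q L : ℕ} {h : ℕ → B} (H : Dig2 q L h) (j n : ℕ) : h (q ^ j * n) = h n := by
  induction j with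
  | zero => simp
  | succ j ih => rw [pow_succ', mul_assoc, H.inv, ih]

lemma Dig2.qa {q L : ℕ} {h : ℕ → B} (hq : 2 ≤ q) (H : Dig2 q L h) (a J c : ℕ)
    (ha : a * q ^ L < q ^ J) : h (a + q ^ J * c) = h a + h c := by
  rcases Nat.eq_zero_or_pos a with h0 | h0
  · subst h0
    rw [zero_add, H.inv_pow, H.zero, zero_add]
  have hJ : L ≤ J := by
    by_contra hc
    have h1 : q ^ J ≤ q ^ L := Nat.pow_le_pow_right (by omega) (by omega)
    have h2 : q ^ L ≤ a * q ^ L := Nat.le_mul_of_pos_left _ h0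
    omega
  obtain ⟨j, rfl⟩ := Nat.exists_eq_add_of_le' hJ
  have hqj : 0 < q ^ j := by positivity
  have haj : a < q ^ j := by
    rw [pow_add] at ha
    exact Nat.lt_of_mul_lt_mul_right ha
  have h1 := H.toDig.loc_pow (by omega) j (a + q ^ (j + L) * c) a (by
    unfold Nat.ModEq; rw [Nat.add_mul_mod_self_left])
  have h2 : (a + q ^ (j + L) * c) / q ^ j = q ^ L * c := by
    rw [pow_add, mul_assoc, Nat.add_mul_div_left _ _ hqj, Nat.div_eq_of_lt haj, zero_add]
  rw [h2, Nat.div_eq_of_lt haj, H.zero, H.inv_pow] at h1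
  linear_combination (norm := abel1) h1

lemma Dig2.sum {q L : ℕ} {h : ℕ → B} (hq : 2 ≤ q) (H : Dig2 q L h) (J n : ℕ) (u : ℕ → ℕ)
    (hu : ∀ k < n, u k * q ^ L < q ^ J) :
    h (∑ k ∈ Finset.range n, u k * (q ^ J) ^ k) = ∑ k ∈ Finset.range n, h (u k) := by
  induction n generalizing u with
  | zero => simp [H.zero]
  | succ n ih =>
    rw [Finset.sum_range_succ', Finset.sum_range_succ' (fun l => h (u l)),
      ← ih (fun l => u (l + 1)) (fun k hk => hu (k + 1) (by omega))]
    have : ∑ k ∈ Finset.range n, u (k + 1) * (q ^ J) ^ (k + 1) + u 0 * (q ^ J) ^ 0 =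
        u 0 + q ^ J * ∑ k ∈ Finset.range n, u (k + 1) * (q ^ J) ^ k := by
      rw [Finset.mul_sum, add_comm, pow_zero, mul_one]
      congr 1
      refine Finset.sum_congr rfl fun k _ => ?_
      ring
    rw [this, H.qa hq _ _ _ (hu 0 (by omega)), add_comm]

lemma ev_lt {q : ℕ} (hq : 2 ≤ q) (a : ℕ) : ∀ᶠ K : ℕ in atTop, a < q ^ K := by
  filter_upwards [eventually_ge_atTop a] with K hK
  exact lt_of_le_of_lt hK (Nat.lt_pow_self (by omega))

lemma Dig2.map {C : Type*} [AddCommGroup C] {q L : ℕ} {h : ℕ → B} (H : Dig2 q L h)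
    (φ : B →+ C) : Dig2 q L (fun n => φ (h n)) where
  zero := by simp [H.zero]
  loc := fun n n' hn => by rw [← map_sub, ← map_sub, H.loc n n' hn]
  inv := fun n => by rw [H.inv]

/-- the two sided version of a digital function -/
lemma Dig.two {q L : ℕ} {f : ℕ → B} (hq : 0 < q) (H : Dig q L f) :
    Dig2 q (L + 1) (fun n => f (q ^ L * n)) where
  zero := by simp [H.zero]
  loc := fun n n' hn => by
    have hp : 0 < q ^ L := by positivity
    have e1 := H.loc_pow hq (L + 1) (q ^ L * n) (q ^ L * n') (by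
      rw [show L + 1 + L = L + (L + 1) by ring, pow_add]; exact hn.mul_left' _)
    have e2 := H.loc_pow hq L (q ^ L * (n / q)) (q ^ L * (n' / q)) (by
      rw [pow_add]
      refine Nat.ModEq.mul_left' _ (modEq_div hq ?_)
      rwa [← pow_succ'])
    rw [pow_succ, Nat.mul_div_mul_left _ _ hp, Nat.mul_div_mul_left _ _ hp] at e1
    rw [Nat.mul_div_cancel_left _ hp, Nat.mul_div_cancel_left _ hp] at e2
    linear_combination (norm := abel1) e1 - e2
  inv := fun n => by
    have e1 := H.loc (q ^ L * (q * n)) 0 (by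
      unfold Nat.ModEq; simp)
    have e2 : q ^ L * (q * n) / q = q ^ L * n := by
      rw [mul_left_comm, Nat.mul_div_cancel_left _ hq]
    rw [e2, Nat.zero_div, sub_self, sub_eq_zero] at e1
    exact e1

lemma Dig.two_sub {q L : ℕ} {f : ℕ → B} (hq : 0 < q) (H : Dig q L f) (n n' : ℕ)
    (hn : n ≡ n' [MOD q ^ L]) : f (q ^ L * n) - f n = f (q ^ L * n') - f n' := by
  have hp : 0 < q ^ L := by positivity
  have e2 := H.loc_pow hq L (q ^ L * n) (q ^ L * n') (by rw [pow_add]; exact hn.mul_left' _)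
  rwa [Nat.mul_div_cancel_left _ hp, Nat.mul_div_cancel_left _ hp] at e2

/-- adding high digits does not change a difference inside one block -/
lemma Dig.diff_high {q L : ℕ} {h : ℕ → B} (hq : 0 < q) (H : Dig q L h) (J n1 n0 W : ℕ)
    (hn : n1 / q ^ J = n0 / q ^ J) :
    h (n1 + q ^ (J + L) * W) - h (n0 + q ^ (J + L) * W) = h n1 - h n0 := by
  have hp : 0 < q ^ J := by positivity
  have e1 := H.loc_pow hq J (n1 + q ^ (J + L) * W) n1 (by
    unfold Nat.ModEq; rw [Nat.add_mul_mod_self_left])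
  have e0 := H.loc_pow hq J (n0 + q ^ (J + L) * W) n0 (by
    unfold Nat.ModEq; rw [Nat.add_mul_mod_self_left])
  have e2 : (n1 + q ^ (J + L) * W) / q ^ J = (n0 + q ^ (J + L) * W) / q ^ J := by
    rw [pow_add, mul_assoc, Nat.add_mul_div_left _ _ hp, Nat.add_mul_div_left _ _ hp, hn]
  rw [e2] at e1
  rw [hn] at e1
  linear_combination (norm := abel1) e1 - e0

lemma no_boundary {q J L c c' p z b0 σ : ℕ} (hp : p.Prime) (hpc : p ∣ c) (hpq : ¬ p ∣ q)
    (hpc' : ¬ p ∣ c') (hpz : ¬ p ∣ z + 1) (hb : b0 * c = z * q ^ (J + L) + σ)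
    (h1 : σ < q ^ (J + L)) (h2 : q ^ (J + L) ≤ σ + c) (hJ : c * c' < q ^ J) :
    (b0 + 1) * c' / q ^ J = b0 * c' / q ^ J := by
  have hQ : 0 < q ^ J := by omega
  by_contra hne
  set M := (b0 + 1) * c' / q ^ J with hM
  have h3 : b0 * c' / q ^ J ≤ M := Nat.div_le_div_right (Nat.mul_le_mul_right _ (by omega))
  have h4 : b0 * c' < M * q ^ J := by
    rw [← Nat.div_lt_iff_lt_mul hQ]; omega
  have h5 : M * q ^ J ≤ (b0 + 1) * c' := Nat.div_mul_le_self _ _
  have hc : 0 < c := by omega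
  have hc' : 0 < c' := Nat.pos_of_ne_zero (fun h => hpc' (h ▸ dvd_zero p))
  rw [pow_add] at hb h1 h2
  set X := q ^ J
  set Y := q ^ L
  have h6 : c * M * X < (c' * (z + 1) * Y + 1) * X := by
    have : c * (M * X) ≤ c * ((b0 + 1) * c') := Nat.mul_le_mul_left _ h5
    have e : c * ((b0 + 1) * c') = c' * (z * (X * Y) + σ) + c * c' := by rw [← hb]; ring
    have : c' * σ ≤ c' * (X * Y) := Nat.mul_le_mul_left _ h1.le
    nlinarith
  have h7 : c' * (z + 1) * Y * X < (c * M + 1) * X := by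
    have : c * (b0 * c') < c * (M * X) := Nat.mul_lt_mul_of_pos_left h4 hc
    have e : c * (b0 * c') = c' * (z * (X * Y) + σ) := by rw [← hb]; ring
    have : c' * (X * Y) ≤ c' * (σ + c) := Nat.mul_le_mul_left _ h2
    nlinarith
  have h8 := Nat.lt_of_mul_lt_mul_right h6
  have h9 := Nat.lt_of_mul_lt_mul_right h7
  have h10 : c * M = c' * (z + 1) * Y := by omega
  have h11 : p ∣ c' * (z + 1) * Y := h10 ▸ hpc.mul_right M
  rcases (hp.dvd_mul).1 h11 with h | h
  · rcases (hp.dvd_mul).1 h with h | h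
    · exact hpc' h
    · exact hpz h
  · exact hpq (hp.dvd_of_dvd_pow h)

/-- Independence of dilates: constant increments force periodicity of the member with a private
prime. -/
theorem indep {ι : Type*} [Fintype ι] {q L : ℕ} (hq : 2 ≤ q) (h : ι → ℕ → B)
    (H : ∀ j, Dig2 q L (h j)) (c : ι → ℕ) (i : ι) (p : ℕ) (hp : p.Prime) (hc : 0 < c i)
    (hpc : p ∣ c i) (hpq : ¬ p ∣ q) (hpc' : ∀ j, j ≠ i → ¬ p ∣ c j) (κ : B)
    (hκ : ∀ b, ∑ j, h j ((b + 1) * c j) - ∑ j, h j (b * c j) = κ) (e : ℕ) (he : 0 < e)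
    (hB : ∀ x : B, e • x = 0) : ∃ T, 0 < T ∧ ∀ n, h i (n + T) = h i n := by
  classical
  obtain ⟨J, hJ⟩ := (ev_lt hq (c i * (∑ j, c j))).exists
  have hJ' : ∀ j, c i * c j < q ^ J := fun j => lt_of_le_of_lt
    (Nat.mul_le_mul_left _ (Finset.single_le_sum (fun _ _ => Nat.zero_le _) (Finset.mem_univ j))) hJ
  have hcJ : c i < q ^ J := lt_of_le_of_lt (Nat.le_mul_self _) (hJ' i)
  have hY : 0 < q ^ L := by positivity
  set N := c i * q ^ L with hN
  have key : ∀ z, ¬ p ∣ z + 1 → h i (z + N + 1) - h i (z + N) = h i (z + 1) - h i z := by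
    intro z hz
    set K := J + L with hK
    have hcK : c i * q ^ L < q ^ K := by
      rw [hK, pow_add]; exact Nat.mul_lt_mul_of_pos_right hcJ hY
    have hcK' : c i < q ^ K := lt_of_le_of_lt (Nat.le_mul_of_pos_right _ hY) hcK
    set b0 := ((z + 1) * q ^ K - 1) / c i with hb0
    have hdm := Nat.div_add_mod ((z + 1) * q ^ K - 1) (c i)
    have hm := Nat.mod_lt ((z + 1) * q ^ K - 1) hc
    rw [← hb0] at hdm
    have hexp : (z + 1) * q ^ K = z * q ^ K + q ^ K := by ring
    obtain ⟨σ, hσ, hσ1, hσ2⟩ : ∃ σ, b0 * c i = z * q ^ K + σ ∧ σ < q ^ K ∧ q ^ K ≤ σ + c i := by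
      refine ⟨b0 * c i - z * q ^ K, ?_, ?_, ?_⟩ <;> rw [mul_comm b0] <;> omega
    obtain ⟨ρ, hρ⟩ := Nat.exists_eq_add_of_le hσ2
    have hρc : ρ < c i := by omega
    have e1 := hκ (b0 + q ^ K * q ^ L)
    have e2 := hκ b0
    rw [← Finset.sum_sub_distrib, ← Finset.add_sum_erase _ _ (Finset.mem_univ i)] at e1 e2
    have e3 : ∑ j ∈ Finset.univ.erase i,
        (h j ((b0 + q ^ K * q ^ L + 1) * c j) - h j ((b0 + q ^ K * q ^ L) * c j)) =
        ∑ j ∈ Finset.univ.erase i, (h j ((b0 + 1) * c j) - h j (b0 * c j)) := by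
      refine Finset.sum_congr rfl fun j hj => ?_
      rw [← (H j).toDig.diff_high (by omega) J _ _ (q ^ L * c j)
        (no_boundary hp hpc hpq (hpc' j (Finset.ne_of_mem_erase hj)) hz hσ hσ1 hσ2 (hJ' j))]
      congr 2 <;> ring
    rw [e3] at e1
    have hρK : ρ * q ^ L < q ^ K := lt_of_le_of_lt (Nat.mul_le_mul_right _ hρc.le) hcK
    have f1 : h i ((b0 + 1) * c i) = h i ρ + h i (z + 1) := by
      rw [← (H i).qa hq ρ K _ hρK]
      congr 1
      rw [add_mul, one_mul, hσ, add_assoc, hρ]; ring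
    have f2 : h i ((b0 + q ^ K * q ^ L + 1) * c i) = h i ρ + h i (z + N + 1) := by
      rw [← (H i).qa hq ρ K _ hρK]
      congr 1
      rw [show (b0 + q ^ K * q ^ L + 1) * c i = b0 * c i + c i + q ^ K * N by rw [hN]; ring, hσ,
        add_assoc (z * q ^ K), hρ]
      ring
    have f3 := (H i).toDig.loc_pow (by omega) K ((b0 + q ^ K * q ^ L) * c i) (b0 * c i) (by
      rw [add_mul, ← pow_add]
      unfold Nat.ModEq
      rw [Nat.add_mul_mod_self_left])
    have hQK : 0 < q ^ K := by positivity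
    have g1 : b0 * c i / q ^ K = z := by
      rw [hσ, add_comm, Nat.add_mul_div_right _ _ hQK, Nat.div_eq_of_lt hσ1, zero_add]
    have g2 : (b0 + q ^ K * q ^ L) * c i / q ^ K = z + N := by
      rw [add_mul, mul_assoc, Nat.add_mul_div_left _ _ hQK, g1, hN, mul_comm]
    rw [g1, g2] at f3
    rw [f2] at e1
    rw [f1] at e2
    linear_combination (norm := abel1) e1 - e2 + f3
  have key2 : ∀ z, h i (z + N + 1) - h i (z + N) = h i (z + 1) - h i z := by
    intro z
    by_cases hz : p ∣ z + 1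
    · obtain ⟨R, hR⟩ := (ev_lt hq ((z + N + 1) * q ^ L)).exists
      have hz' : ¬ p ∣ z + q ^ R + 1 := by
        intro h1
        rw [show z + q ^ R + 1 = z + 1 + q ^ R by ring] at h1
        exact hpq (hp.dvd_of_dvd_pow ((Nat.dvd_add_right hz).1 h1))
      have k1 := key _ hz'
      have hq' : ∀ a, a ≤ z + N + 1 → h i (a + q ^ R) = h i a + h i 1 := by
        intro a ha
        rw [← (H i).qa hq a R 1 (lt_of_le_of_lt (Nat.mul_le_mul_right _ ha) hR), mul_one]
      rw [show z + q ^ R + N + 1 = z + N + 1 + q ^ R by ring,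
        show z + q ^ R + N = z + N + q ^ R by ring, show z + q ^ R + 1 = z + 1 + q ^ R by ring,
        hq' _ le_rfl, hq' _ (by omega), hq' _ (by omega), hq' _ (by omega)] at k1
      linear_combination (norm := abel1) k1
    · exact key z hz
  have key3 : ∀ z, h i (z + N) = h i z + h i N := by
    intro z
    induction z with
    | zero => simp [(H i).zero]
    | succ z ih =>
      have := key2 z
      rw [show z + 1 + N = z + N + 1 by ring]
      linear_combination (norm := abel1) this + ih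
  have key4 : ∀ t z, h i (z + t * N) = h i z + t • h i N := by
    intro t
    induction t with
    | zero => simp
    | succ t ih =>
      intro z
      rw [add_mul, one_mul, ← add_assoc, key3, ih, succ_nsmul, add_assoc]
  refine ⟨e * N, by positivity, fun n => ?_⟩
  rw [key4, hB, add_zero]

end Pool.Agent.MP_b1aeef_nt.H23
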