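import Pool.Agent.MP_b1aeef_nt.H82.Alg
import Pool.Agent.MP_b1aeef_nt.H23.Dig

/-! The divided power monoid algebra over `ℤ` recording lacunary shifts. -/

set_option autoImplicit false

open Filter Polynomial

namespace Pool.Agent.MP_b1aeef_nt.H23

open Pool.Agent.MP_b1aeef_nt.H82 (M mul_m mul_b one_m one_b)

variable {B : Type*} [AddCommGroup B]

/-- The algebra. -/
abbrev A := MonoidAlgebra ℤ M

/-- basis element -/
noncomputable abbrev sg (g : M) : A := MonoidAlgebra.single g 1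

lemma sg_mul (g h : M) : sg g * sg h = sg (g * h) := by
  simp [sg, MonoidAlgebra.single_mul_single]

lemma sg_one : sg 1 = 1 := rfl

/-- The test functional attached to a polynomial. -/
noncomputable def tau (h : ℕ → B) (Q : ℕ[X]) : A →ₗ[ℤ] B :=
  (Finsupp.linearCombination ℤ (fun g : M => h (g.b * Q.coeff g.m))) ∘ₗ
    (MonoidAlgebra.coeffLinearEquiv ℤ).toLinearMap

lemma tau_single (h : ℕ → B) (Q : ℕ[X]) (g : M) (r : ℤ) :
    tau h Q (MonoidAlgebra.single g r) = r • h (g.b * Q.coeff g.m) := by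
  simp [tau]

lemma tau_sg (h : ℕ → B) (Q : ℕ[X]) (g : M) : tau h Q (sg g) = h (g.b * Q.coeff g.m) := by
  simp [sg, tau_single]

lemma tau_one (h : ℕ → B) (Q : ℕ[X]) : tau h Q 1 = h (Q.coeff 0) := by
  rw [← sg_one, tau_sg]; simp

/-- The shift element. -/
noncomputable def E (d b : ℕ) : A := ∑ l ∈ Finset.range (d + 1), sg ⟨l, b ^ l⟩

lemma ev_sum {q L : ℕ} {h : ℕ → B} (hq : 2 ≤ q) (H : Dig2 q L h) (n : ℕ) (u : ℕ → ℕ) :
    ∀ᶠ K : ℕ in atTop, h (∑ k ∈ Finset.range n, u k * (q ^ K) ^ k) =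
      ∑ k ∈ Finset.range n, h (u k) := by
  filter_upwards [ev_lt hq ((∑ k ∈ Finset.range n, u k) * q ^ L)] with K hK
  exact H.sum hq K n u fun k hk => lt_of_le_of_lt (Nat.mul_le_mul_right _
    (Finset.single_le_sum (fun _ _ => Nat.zero_le _) (Finset.mem_range.2 hk))) hK

/-- from basis elements to all elements -/
lemma ev_lin {f f' : ℕ → A →ₗ[ℤ] B} (hf : ∀ g : M, ∀ᶠ K : ℕ in atTop, f K (sg g) = f' K (sg g))
    (a : A) : ∀ᶠ K : ℕ in atTop, f K a = f' K a := by
  induction a using MonoidAlgebra.induction_linear with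
  | zero => simp
  | add x y hx hy =>
    filter_upwards [hx, hy] with L h1 h2
    rw [map_add, map_add, h1, h2]
  | single g r =>
    filter_upwards [hf g] with L h
    have : (MonoidAlgebra.single g r : A) = r • sg g := by simp [sg]
    rw [this, map_smul, map_smul, h]

section
variable {q L : ℕ} {h : ℕ → B}

lemma shift_single (hq : 2 ≤ q) (H : Dig2 q L h) (d b : ℕ) (Q : ℕ[X]) (hQ : Q.natDegree ≤ d)
    (g : M) :
    ∀ᶠ K : ℕ in atTop, tau h (taylor (b * q ^ K) Q) (sg g) = tau h Q (E d b * sg g) := by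
  filter_upwards [ev_sum hq H (d + 1)
    (fun l => (l + g.m).choose g.m * b ^ l * g.b * Q.coeff (l + g.m))] with K hK
  rw [tau_sg, E, Finset.sum_mul, map_sum]
  simp only [sg_mul, tau_sg, mul_b, mul_m]
  rw [← hK, taylor_coeff, eval_eq_sum_range' (n := d + 1)
    (lt_of_le_of_lt (natDegree_hasseDeriv_le Q g.m) (by omega)), Finset.mul_sum]
  congr 1
  refine Finset.sum_congr rfl fun l _ => ?_
  rw [hasseDeriv_coeff, mul_pow]
  simp only [Nat.cast_id]
  ring

lemma shift (hq : 2 ≤ q) (H : Dig2 q L h) (d b : ℕ) (Q : ℕ[X]) (hQ : Q.natDegree ≤ d) (a : A) :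
    ∀ᶠ K : ℕ in atTop, tau h (taylor (b * q ^ K) Q) a = tau h Q (E d b * a) :=
  ev_lin (f := fun K => tau h (taylor (b * q ^ K) Q))
    (f' := fun _ => tau h Q ∘ₗ LinearMap.mulLeft ℤ (E d b)) (shift_single hq H d b Q hQ) a

lemma reach_aux (hq : 2 ≤ q) (H : Dig2 q L h) {ι : Type*} [Finite ι] (d R : ℕ) (Q : ι → ℕ[X])
    (hQ : ∀ i, (Q i).natDegree ≤ d) (bs : List ℕ) (a : A) :
    ∃ y : ℕ, q ^ R ∣ y ∧
      ∀ i, tau h (taylor y (Q i)) a = tau h (Q i) ((bs.map (E d)).prod * a) := by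
  induction bs generalizing a with
  | nil => exact ⟨0, dvd_zero _, fun i => by simp⟩
  | cons b bs ih =>
    obtain ⟨y, hy0, hy⟩ := ih (E d b * a)
    have : ∀ᶠ K : ℕ in atTop, ∀ i, tau h (taylor (b * q ^ K) (taylor y (Q i))) a =
        tau h (taylor y (Q i)) (E d b * a) :=
      eventually_all.2 fun i => shift hq H d b _ (by rw [natDegree_taylor]; exact hQ i) a
    obtain ⟨K, hK, hKR⟩ := (this.and (eventually_ge_atTop R)).exists
    refine ⟨b * q ^ K + y, dvd_add ((pow_dvd_pow q hKR).mul_left b) hy0, fun i => ?_⟩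
    rw [← taylor_taylor, hK, hy, List.map_cons, List.prod_cons]
    congr 1
    ring

end

/-- The monoid of reachable elements. -/
noncomputable def Gam (d : ℕ) : Submonoid A := Submonoid.closure (Set.range (E d))

lemma E_mem (d b : ℕ) : E d b ∈ Gam d := Submonoid.subset_closure ⟨b, rfl⟩

lemma reach {q L : ℕ} {h : ℕ → B} (hq : 2 ≤ q) (H : Dig2 q L h) {ι : Type*} [Finite ι] (d R : ℕ)
    (Q : ι → ℕ[X]) (hQ : ∀ i, (Q i).natDegree ≤ d) (γ : A) (hγ : γ ∈ Gam d) :
    ∃ y : ℕ, q ^ R ∣ y ∧ ∀ i, h ((Q i).eval y) = tau h (Q i) γ := by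
  have : ∃ bs : List ℕ, γ = (bs.map (E d)).prod := by
    induction hγ using Submonoid.closure_induction with
    | mem x hx => obtain ⟨b, rfl⟩ := hx; exact ⟨[b], by simp⟩
    | one => exact ⟨[], by simp⟩
    | mul x y _ _ hx hy =>
      obtain ⟨l1, rfl⟩ := hx
      obtain ⟨l2, rfl⟩ := hy
      exact ⟨l1 ++ l2, by simp⟩
  obtain ⟨bs, rfl⟩ := this
  obtain ⟨y, hy0, hy⟩ := reach_aux hq H d R Q hQ bs 1
  refine ⟨y, hy0, fun i => ?_⟩
  have := hy i
  rwa [tau_one, taylor_coeff_zero, mul_one] at this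

/-- Elements of order at least `n`. -/
noncomputable def I (n : ℕ) : Submodule ℤ A :=
  MonoidAlgebra.supported ℤ ℤ {g : M | n ≤ g.m}

lemma I_mono {n k : ℕ} (h : n ≤ k) {a : A} (ha : a ∈ I k) : a ∈ I n := by
  rw [I, MonoidAlgebra.mem_supported] at *
  intro g hg
  exact h.trans (ha hg)

lemma mem_I_zero (a : A) : a ∈ I 0 := by
  rw [I, MonoidAlgebra.mem_supported]
  intro g _
  exact Nat.zero_le _

lemma sg_mem {n : ℕ} {g : M} (h : n ≤ g.m) : sg g ∈ I n := by
  rw [I, MonoidAlgebra.mem_supported]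
  intro g' hg'
  have : g' = g := by
    have := Finsupp.support_single_subset (Finset.mem_coe.1 hg')
    simpa using this
  rw [this]; exact h

lemma mul_mem_I {n k : ℕ} {a b : A} (ha : a ∈ I n) (hb : b ∈ I k) : a * b ∈ I (n + k) := by
  classical
  rw [I, MonoidAlgebra.mem_supported] at *
  intro g hg
  have := MonoidAlgebra.support_coeff_mul_subset a b (Finset.mem_coe.1 hg)
  obtain ⟨x, hx, y, hy, rfl⟩ := Finset.mem_mul.1 this
  have h1 : n ≤ x.m := ha hx
  have h2 : k ≤ y.m := hb hy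
  change n + k ≤ x.m + y.m
  omega

lemma mul_mem_I' {k : ℕ} (a : A) {b : A} (hb : b ∈ I k) : a * b ∈ I k := by
  have := mul_mem_I (mem_I_zero a) hb
  rwa [zero_add] at this

lemma pow_mem_I {u : A} (hu : u ∈ I 1) (k : ℕ) : u ^ k ∈ I k := by
  induction k with
  | zero => exact mem_I_zero _
  | succ k ih => rw [pow_succ]; exact mul_mem_I ih hu

lemma tau_congr (h : ℕ → B) {n : ℕ} {Q Q' : ℕ[X]} (hc : ∀ m, n ≤ m → Q.coeff m = Q'.coeff m)
    {a : A} (ha : a ∈ I n) : tau h Q a = tau h Q' a := by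
  rw [I, MonoidAlgebra.supported_eq_span_single] at ha
  induction ha using Submodule.span_induction with
  | mem x hx =>
    obtain ⟨g, hg, rfl⟩ := hx
    simp only [tau_single]
    rw [hc _ hg]
  | zero => simp
  | add x y _ _ hx hy => rw [map_add, map_add, hx, hy]
  | smul r x _ hx => rw [map_smul, map_smul, hx]

lemma tau_zero_poly {h : ℕ → B} (h0 : h 0 = 0) (a : A) : tau h 0 a = 0 := by
  induction a using MonoidAlgebra.induction_linear with
  | zero => simp
  | add x y hx hy => rw [map_add, hx, hy, add_zero]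
  | single g r => simp [tau_single, h0]

lemma tau_eq_zero {h : ℕ → B} (h0 : h 0 = 0) {d : ℕ} {Q : ℕ[X]} (hQ : Q.natDegree ≤ d) {a : A}
    (ha : a ∈ I (d + 1)) : tau h Q a = 0 := by
  rw [← tau_zero_poly h0 a]
  exact tau_congr h (fun m hm => by
    rw [coeff_eq_zero_of_natDegree_lt (by omega), coeff_zero]) ha

lemma E_sub_one (d b : ℕ) : E d b - 1 ∈ I 1 := by
  rw [E, Finset.sum_range_succ']
  have h0 : sg ⟨0, b ^ 0⟩ = 1 := by rw [pow_zero]; rfl
  rw [h0, add_sub_cancel_right]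
  exact Submodule.sum_mem _ fun l _ => sg_mem (by simp)

lemma Gam_sub_one {d : ℕ} {γ : A} (hγ : γ ∈ Gam d) : γ - 1 ∈ I 1 := by
  induction hγ using Submonoid.closure_induction with
  | mem x hx => obtain ⟨b, rfl⟩ := hx; exact E_sub_one d b
  | one => simp
  | mul x y _ _ hx hy =>
    have := Submodule.add_mem _ (mul_mem_I' x hy) hx
    convert this using 1
    ring

lemma dvd_choose (e d k : ℕ) (hk : 1 ≤ k) (hkd : k ≤ d) : e ∣ (e * d.factorial).choose k := by
  rcases Nat.eq_zero_or_pos e with h0 | h0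
  · subst h0
    rw [zero_mul, Nat.choose_eq_zero_of_lt (by omega)]
  obtain ⟨t, ht⟩ := Nat.dvd_factorial (show 0 < k by omega) hkd
  obtain ⟨k', rfl⟩ : ∃ k', k = k' + 1 := ⟨k - 1, by omega⟩
  have hpos : 0 < e * d.factorial := Nat.mul_pos h0 (Nat.factorial_pos _)
  obtain ⟨N, hN⟩ : ∃ N, e * d.factorial = N + 1 := ⟨e * d.factorial - 1, by omega⟩
  have h1 := Nat.add_one_mul_choose_eq N k'
  refine ⟨t * N.choose k', ?_⟩
  apply Nat.eq_of_mul_eq_mul_right (show 0 < k' + 1 by omega)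
  rw [hN, ← h1, ← hN, ht]
  ring

/-- unipotent elements have finite order for the test functionals -/
lemma tau_pow {h : ℕ → B} (h0 : h 0 = 0) {d : ℕ} {Q : ℕ[X]} (hQ : Q.natDegree ≤ d) (e : ℕ)
    (hB : ∀ x : B, e • x = 0) (γ S : A) (hS : S - 1 ∈ I 1) :
    tau h Q (γ * S ^ (e * d.factorial)) = tau h Q γ := by
  have h1 : S = (S - 1) + 1 := by ring
  rw [h1, add_pow, Finset.sum_range_succ', mul_add, map_add, Finset.mul_sum, map_sum,
    Finset.sum_eq_zero]
  · simp
  · intro k _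
    by_cases hk : k + 1 ≤ d
    · obtain ⟨t, ht⟩ := dvd_choose e d (k + 1) (by omega) hk
      rw [ht, ← mul_assoc, mul_comm _ ((e * t : ℕ) : A), ← nsmul_eq_mul, map_nsmul, mul_nsmul', hB]
    · apply tau_eq_zero h0 hQ
      apply mul_mem_I'
      rw [mul_assoc, mul_comm]
      exact mul_mem_I' _ (I_mono (by omega) (pow_mem_I hS (k + 1)))

/-- homogeneous part of a product of two shifts -/
noncomputable def T (n x y : ℕ) : A :=
  ∑ k ∈ Finset.range (n + 1), sg ⟨n, y ^ k * x ^ (n - k) * n.choose k⟩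

lemma T_mem (n x y : ℕ) : T n x y ∈ I n := Submodule.sum_mem _ fun _ _ => sg_mem le_rfl

lemma E_trunc (d l b : ℕ) (hl : l ≤ d) :
    E d b - ∑ n ∈ Finset.range (l + 1), sg ⟨n, b ^ n⟩ ∈ I (l + 1) := by
  rw [E, ← Finset.sum_range_add_sum_Ico _ (show l + 1 ≤ d + 1 by omega), add_sub_cancel_left]
  exact Submodule.sum_mem _ fun n hn => sg_mem (Finset.mem_Ico.1 hn).1

lemma E_mul_trunc (d l x y : ℕ) (hl : l ≤ d) :
    E d x * E d y - ∑ n ∈ Finset.range (l + 1), T n x y ∈ I (l + 1) := by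
  classical
  have h1 : E d x * E d y = ∑ p ∈ Finset.range (d + 1) ×ˢ Finset.range (d + 1),
      sg ⟨p.1 + p.2, y ^ p.2 * x ^ p.1 * (p.1 + p.2).choose p.2⟩ := by
    rw [E, E, Finset.sum_mul_sum, Finset.sum_product]
    refine Finset.sum_congr rfl fun i _ => Finset.sum_congr rfl fun k _ => ?_
    rw [sg_mul]
    congr 1
    ext
    · simp
    · simp only [mul_b]; ring
  have h2 : ∑ n ∈ Finset.range (l + 1), T n x y =
      ∑ p ∈ (Finset.range (d + 1) ×ˢ Finset.range (d + 1)).filter (fun p => p.1 + p.2 ≤ l),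
      sg ⟨p.1 + p.2, y ^ p.2 * x ^ p.1 * (p.1 + p.2).choose p.2⟩ := by
    simp only [T]
    rw [Finset.sum_sigma']
    refine Finset.sum_nbij' (fun s => (s.1 - s.2, s.2)) (fun p => ⟨p.1 + p.2, p.2⟩) ?_ ?_ ?_ ?_ ?_
    · rintro ⟨n, k⟩ hs
      simp only [Finset.mem_sigma, Finset.mem_range, Finset.mem_filter, Finset.mem_product] at hs ⊢
      omega
    · rintro ⟨i, k⟩ hs
      simp only [Finset.mem_sigma, Finset.mem_range, Finset.mem_filter, Finset.mem_product] at hs ⊢
      omega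
    · rintro ⟨n, k⟩ hs
      simp only [Finset.mem_sigma, Finset.mem_range] at hs
      have : n - k + k = n := by omega
      simp [this]
    · rintro ⟨i, k⟩ _
      simp
    · rintro ⟨n, k⟩ hs
      simp only [Finset.mem_sigma, Finset.mem_range] at hs
      have : n - k + k = n := by omega
      simp [this]
  rw [h1, h2, ← Finset.sum_filter_add_sum_filter_not _ (fun p : ℕ × ℕ => p.1 + p.2 ≤ l),
    add_sub_cancel_left]
  refine Submodule.sum_mem _ fun p hp => sg_mem ?_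
  have := (Finset.mem_filter.1 hp).2
  change l + 1 ≤ p.1 + p.2
  omega

end Pool.Agent.MP_b1aeef_nt.H23
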