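import Pool.Agent.MP_b1aeef_nt.H82.Final

/-! The converse: a periodic quotient forbids a word. -/

set_option autoImplicit false

open Polynomial

namespace Pool.Agent.MP_b1aeef_nt.H23

variable {A : Type*} [AddCommGroup A]

lemma period_mod (f : ℕ → A) (B : AddSubgroup A) (T : ℕ) (h : ∀ n, f (n + T) - f n ∈ B)
    (n n' : ℕ) (hn : n ≡ n' [MOD T]) : f n - f n' ∈ B := by
  have key : ∀ j n, f (n + T * j) - f n ∈ B := by
    intro j
    induction j with
    | zero => intro n; simp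
    | succ j ih =>
      intro n
      have := B.add_mem (h (n + T * j)) (ih n)
      rwa [sub_add_sub_cancel, add_assoc, ← Nat.mul_succ] at this
  have h1 := key (n / T) (n % T)
  have h2 := key (n' / T) (n' % T)
  rw [Nat.mod_add_div] at h1 h2
  have := B.sub_mem h1 h2
  rw [show n % T = n' % T from hn] at this
  rwa [sub_sub_sub_cancel_right] at this

lemma poly_modEq (P : ℚ[X]) (a : ℕ → ℕ) (ha : ∀ n : ℕ, (a n : ℚ) = P.eval (n : ℚ)) (D : ℕ)
    (hD0 : 0 < D) (hD : ∀ m, ∃ z : ℤ, (D : ℚ) * P.coeff m = z) (T n y : ℕ) :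
    a (n + T * D * y) ≡ a n [MOD T] := by
  choose z hz using hD
  have h1 : ∀ x : ℕ, (D : ℤ) * a x = ∑ m ∈ Finset.range (P.natDegree + 1), z m * (x : ℤ) ^ m := by
    intro x
    apply Int.cast_injective (α := ℚ)
    push_cast
    rw [ha, eval_eq_sum_range, Finset.mul_sum]
    refine Finset.sum_congr rfl fun m _ => ?_
    rw [← hz, mul_assoc]
  have h2 : ((D : ℤ) * T) ∣ (D : ℤ) * ((a (n + T * D * y) : ℤ) - a n) := by
    rw [mul_sub, h1, h1, ← Finset.sum_sub_distrib]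
    refine Finset.dvd_sum fun m _ => ?_
    rw [← mul_sub]
    refine Dvd.dvd.mul_left (dvd_trans ⟨(y : ℤ), ?_⟩ (sub_dvd_pow_sub_pow _ _ m)) _
    push_cast
    ring
  have h3 := (mul_dvd_mul_iff_left (show (D : ℤ) ≠ 0 by exact_mod_cast hD0.ne')).1 h2
  exact (Nat.modEq_iff_dvd.2 h3).symm

theorem converse (f : ℕ → A) (P : ℚ[X]) (a : ℕ → ℕ) (ha : ∀ n : ℕ, (a n : ℚ) = P.eval (n : ℚ))
    (H : ∀ (k : ℕ) (w : Fin k → A), ∃ m : ℕ, ∀ i : Fin k, f (a (m + i)) = w i)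
    (B : AddSubgroup A) (hB : B ≠ ⊤) : ¬ ∃ T, 0 < T ∧ ∀ n, f (n + T) - f n ∈ B := by
  rintro ⟨T, hT, h⟩
  obtain ⟨D, hD0, hD⟩ := H82.exists_den P
  obtain ⟨g, hg⟩ : ∃ g, g ∉ B := by
    by_contra hc
    push Not at hc
    exact hB (eq_top_iff.2 fun x _ => hc x)
  obtain ⟨m, hm⟩ := H (T * D + 1) (fun i => if i.1 = 0 then 0 else g)
  have h0 := hm ⟨0, by omega⟩
  have h1 := hm ⟨T * D, by omega⟩
  have hTD : T * D ≠ 0 := (Nat.mul_pos hT hD0).ne'
  simp only [if_true, add_zero, hTD, if_false] at h0 h1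
  have h2 := period_mod f B T h _ _ (poly_modEq P a ha D hD0 hD T m 1)
  rw [mul_one, h0, h1, sub_zero] at h2
  exact hg h2

end Pool.Agent.MP_b1aeef_nt.H23
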