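import Pool.Agent.MP_b1aeef_nt.H23.Alg

/-! One collision of exponents, spanning, and the core surjectivity theorem. -/

set_option autoImplicit false

open Filter Polynomial

namespace Pool.Agent.MP_b1aeef_nt.H23

open Pool.Agent.MP_b1aeef_nt.H82 (M mul_m mul_b one_m one_b)

variable {B : Type*} [AddCommGroup B] {q L : ℕ} {h : ℕ → B}

lemma term_le (x y n k : ℕ) (hk : k < n + 1) : y ^ k * x ^ (n - k) * n.choose k ≤ (y + x) ^ n := by
  rw [add_pow]
  exact Finset.single_le_sum (f := fun k => y ^ k * x ^ (n - k) * (n.choose k : ℕ))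
    (fun _ _ => Nat.zero_le _) (Finset.mem_range.2 hk)

lemma sep_sg (hq : 2 ≤ q) (H : Dig2 q L h) (Q : ℕ[X]) (g : M) (n x y J : ℕ)
    (hb : (g.m + n).choose n * g.b * Q.coeff (g.m + n) * q ^ L * (y + x) ^ n < q ^ J) :
    tau h Q (sg g * sg ⟨n, (x + y * q ^ J) ^ n⟩) = tau h Q (sg g * T n x y) := by
  rw [T, Finset.mul_sum, map_sum]
  simp only [sg_mul, tau_sg, mul_b, mul_m]
  rw [← H.sum hq J (n + 1) (fun k => (g.m + n).choose n * g.b *
    (y ^ k * x ^ (n - k) * n.choose k) * Q.coeff (g.m + n))]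
  · congr 1
    rw [add_comm x, add_pow, Finset.mul_sum, Finset.sum_mul]
    refine Finset.sum_congr rfl fun k _ => ?_
    rw [mul_pow]
    simp only [Nat.cast_id]
    ring
  · intro k hk
    refine lt_of_le_of_lt ?_ hb
    calc _ = (g.m + n).choose n * g.b * Q.coeff (g.m + n) * q ^ L *
          (y ^ k * x ^ (n - k) * n.choose k) := by ring
      _ ≤ _ := Nat.mul_le_mul_left _ (term_le x y n k hk)

lemma ev_bound (hq : 2 ≤ q) (C D n l : ℕ) (hn : n < l) :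
    ∀ᶠ K : ℕ in atTop, C * (D * q ^ K) ^ n < q ^ (l * K) := by
  filter_upwards [ev_lt hq (C * D ^ n)] with K hK
  have h1 : 0 < (q ^ K) ^ n := by positivity
  calc C * (D * q ^ K) ^ n = C * D ^ n * (q ^ K) ^ n := by rw [mul_pow]; ring
    _ < q ^ K * (q ^ K) ^ n := Nat.mul_lt_mul_of_pos_right hK h1
    _ = (q ^ K) ^ (n + 1) := by ring
    _ ≤ (q ^ K) ^ l := Nat.pow_le_pow_right (by positivity) hn
    _ = q ^ (l * K) := by rw [← pow_mul, mul_comm]

lemma sepA (hq : 2 ≤ q) (H : Dig2 q L h) (d : ℕ) (Q : ℕ[X]) (hQ : Q.natDegree ≤ d) (β : ℕ)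
    (a : A) : ∀ᶠ K : ℕ in atTop,
      tau h Q (a * E d (1 + β * q ^ K)) = tau h Q (a * (E d 1 * E d β)) := by
  have h1 : ∀ n, ∀ᶠ K : ℕ in atTop,
      tau h Q (a * sg ⟨n, (1 + β * q ^ K) ^ n⟩) = tau h Q (a * T n 1 β) := fun n =>
    ev_lin (f := fun K => tau h Q ∘ₗ LinearMap.mulRight ℤ (sg ⟨n, (1 + β * q ^ K) ^ n⟩))
      (f' := fun _ => tau h Q ∘ₗ LinearMap.mulRight ℤ (T n 1 β)) (fun g => by
        filter_upwards [ev_lt hq ((g.m + n).choose n * g.b * Q.coeff (g.m + n) * q ^ L *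
          (β + 1) ^ n)] with K hK
        exact sep_sg hq H Q g n 1 β K hK) a
  filter_upwards [(Finset.range (d + 1)).eventually_all.2 fun n _ => h1 n] with K hK
  have h2 := tau_eq_zero H.zero hQ (mul_mem_I' a (E_mul_trunc d d 1 β le_rfl))
  rw [mul_sub, map_sub, sub_eq_zero] at h2
  rw [h2, E, Finset.mul_sum, Finset.mul_sum, map_sum, map_sum]
  exact Finset.sum_congr rfl hK

lemma sepB (hq : 2 ≤ q) (H : Dig2 q L h) (Q : ℕ[X]) (β1 β2 n l : ℕ) (hn : n < l) (a : A) :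
    ∀ᶠ K : ℕ in atTop, tau h Q (a * sg ⟨n, (1 + β1 * q ^ K + β2 * q ^ (l * K)) ^ n⟩) =
      tau h Q (a * T n (1 + β1 * q ^ K) β2) :=
  ev_lin (f := fun K => tau h Q ∘ₗ LinearMap.mulRight ℤ
      (sg ⟨n, (1 + β1 * q ^ K + β2 * q ^ (l * K)) ^ n⟩))
    (f' := fun K => tau h Q ∘ₗ LinearMap.mulRight ℤ (T n (1 + β1 * q ^ K) β2)) (fun g => by
      filter_upwards [ev_bound hq ((g.m + n).choose n * g.b * Q.coeff (g.m + n) * q ^ L)
        (β2 + 1 + β1) n l hn] with K hK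
      refine sep_sg hq H Q g n _ β2 (l * K) (lt_of_le_of_lt ?_ hK)
      refine Nat.mul_le_mul_left _ (Nat.pow_le_pow_left ?_ _)
      have : 1 ≤ q ^ K := Nat.one_le_pow _ _ (by omega)
      nlinarith) a

lemma one_add_pow_eq (β X n : ℕ) : ∃ B2, (1 + β * X) ^ n = 1 + X * B2 := by
  induction n with
  | zero => exact ⟨0, by simp⟩
  | succ n ih =>
    obtain ⟨B2, h⟩ := ih
    exact ⟨B2 + β + β * X * B2, by rw [pow_succ, h]; ring⟩

/-- the defect of additivity produced by one collision -/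
def off (h : ℕ → B) (u v c : ℕ) : B := h ((u + v) * c) - h (u * c) - h (v * c)

lemma collide (hq : 2 ≤ q) (H : Dig2 q L h) (Q : ℕ[X]) (β1 β2 l : ℕ) :
    ∀ᶠ K : ℕ in atTop,
      tau h Q (sg ⟨l + 1, (1 + β1 * q ^ K + β2 * q ^ ((l + 1) * K)) ^ (l + 1)⟩) =
      tau h Q (T (l + 1) (1 + β1 * q ^ K) β2) +
        off h (β1 ^ (l + 1)) ((l + 1) * β2) (Q.coeff (l + 1)) := by
  set c := Q.coeff (l + 1) with hc
  filter_upwards [ev_bound hq ((∑ k ∈ Finset.range (l + 1), β1 ^ k * (l + 1).choose k) * c * q ^ L)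
      1 l (l + 1) (by omega),
    ev_bound hq ((β1 ^ (l + 1) + (β2 + 1) ^ (l + 1)) * c * q ^ L) (1 + β1) l (l + 1) (by omega),
    ev_lt hq ((β1 ^ (l + 1) + (l + 1) * β2) * c * q ^ L)] with K h1 h2 h3
  have hX : 1 ≤ q ^ K := Nat.one_le_pow _ _ (by omega)
  have hZ : q ^ ((l + 1) * K) = (q ^ K) ^ (l + 1) := by rw [← pow_mul, mul_comm]
  set X := q ^ K with hXdef
  set B1 := 1 + β1 * X with hB1
  set Blow := ∑ k ∈ Finset.range (l + 1), (β1 * X) ^ k * (l + 1).choose k with hBlow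
  have e1 : B1 ^ (l + 1) = Blow + β1 ^ (l + 1) * q ^ ((l + 1) * K) := by
    rw [hB1, add_comm 1, add_pow, Finset.sum_range_succ, hZ, hBlow, mul_pow]
    simp
  have e2 : Blow * c * q ^ L < q ^ ((l + 1) * K) := by
    refine lt_of_le_of_lt ?_ h1
    have : Blow ≤ (∑ k ∈ Finset.range (l + 1), β1 ^ k * (l + 1).choose k) * (1 * X) ^ l := by
      rw [Finset.sum_mul]
      refine Finset.sum_le_sum fun k hk => ?_
      have hk' : k ≤ l := by have := Finset.mem_range.1 hk; omega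
      have : X ^ k ≤ X ^ l := Nat.pow_le_pow_right hX hk'
      rw [mul_pow, one_mul]
      calc _ = β1 ^ k * (l + 1).choose k * X ^ k := by ring
        _ ≤ _ := Nat.mul_le_mul_left _ this
    calc _ ≤ (∑ k ∈ Finset.range (l + 1), β1 ^ k * (l + 1).choose k) * (1 * X) ^ l * c * q ^ L :=
          Nat.mul_le_mul_right _ (Nat.mul_le_mul_right _ this)
      _ = _ := by ring
  obtain ⟨B2, hB2⟩ := one_add_pow_eq β1 X l
  rw [← hB1] at hB2
  have hB1X : B1 ≤ (1 + β1) * X := by rw [hB1]; nlinarith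
  have hB11 : 1 ≤ B1 := by rw [hB1]; omega
  have hP1 : 1 ≤ ((1 + β1) * X) ^ l := Nat.one_le_pow _ _ (by omega)
  let u : ℕ → ℕ := fun k => β2 ^ k * B1 ^ (l + 1 - k) * (l + 1).choose k * c
  have hu : ∀ k, 1 ≤ k → k < l + 2 →
      (β1 ^ (l + 1) * c + u k) * q ^ L < q ^ ((l + 1) * K) := by
    intro k hk1 hk2
    refine lt_of_le_of_lt ?_ h2
    have a1 : B1 ^ (l + 1 - k) ≤ ((1 + β1) * X) ^ l :=
      (Nat.pow_le_pow_right hB11 (by omega)).trans (Nat.pow_le_pow_left hB1X _)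
    have a2 := term_le 1 β2 (l + 1) k hk2
    rw [one_pow, mul_one] at a2
    have a3 : u k ≤ (β2 + 1) ^ (l + 1) * ((1 + β1) * X) ^ l * c := by
      calc u k = β2 ^ k * (l + 1).choose k * B1 ^ (l + 1 - k) * c := by simp only [u]; ring
        _ ≤ _ := Nat.mul_le_mul_right _ (Nat.mul_le_mul a2 a1)
    have a4 : β1 ^ (l + 1) * c ≤ β1 ^ (l + 1) * c * ((1 + β1) * X) ^ l :=
      Nat.le_mul_of_pos_right _ hP1
    calc _ ≤ (β1 ^ (l + 1) * c * ((1 + β1) * X) ^ l +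
          (β2 + 1) ^ (l + 1) * ((1 + β1) * X) ^ l * c) * q ^ L :=
          Nat.mul_le_mul_right _ (Nat.add_le_add a4 a3)
      _ = _ := by ring
  set Z := q ^ ((l + 1) * K) with hZdef
  have hR := H.sum hq ((l + 1) * K) l (fun k => u (k + 1 + 1)) (fun k hk =>
    lt_of_le_of_lt (Nat.mul_le_mul_right _ (Nat.le_add_left _ _)) (hu _ (by omega) (by omega)))
  rw [← hZdef] at hR
  set R := ∑ k ∈ Finset.range l, u (k + 1 + 1) * Z ^ k with hRdef
  have hu0 : u 0 = Blow * c + Z * (β1 ^ (l + 1) * c) := by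
    simp only [u, pow_zero, Nat.sub_zero, Nat.choose_zero_right, one_mul, mul_one]
    rw [e1]; ring
  have hu1 : u 1 = (l + 1) * β2 * c + X * ((l + 1) * β2 * B2 * c) := by
    simp only [u, pow_one, Nat.add_sub_cancel, Nat.choose_one_right]
    rw [hB2]; ring
  have e3 : (B1 + β2 * Z) ^ (l + 1) * c = Blow * c + Z * ((β1 ^ (l + 1) * c + u 1) + Z * R) := by
    have : (B1 + β2 * Z) ^ (l + 1) * c = ∑ k ∈ Finset.range (l + 1 + 1), u k * Z ^ k := by
      rw [add_comm B1, add_pow, Finset.sum_mul]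
      refine Finset.sum_congr rfl fun k _ => ?_
      simp only [u, Nat.cast_id, mul_pow]
      ring
    rw [this, Finset.sum_range_succ', Finset.sum_range_succ', hu0, hRdef]
    have : ∑ k ∈ Finset.range l, u (k + 1 + 1) * Z ^ (k + 1 + 1) =
        Z * (Z * ∑ k ∈ Finset.range l, u (k + 1 + 1) * Z ^ k) := by
      rw [Finset.mul_sum, Finset.mul_sum]
      exact Finset.sum_congr rfl fun k _ => by ring
    rw [this]
    ring
  have e4 : tau h Q (T (l + 1) B1 β2) =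
      ∑ k ∈ Finset.range l, h (u (k + 1 + 1)) + h (u 1) + h (u 0) := by
    rw [T, map_sum]
    simp only [tau_sg]
    rw [Finset.sum_range_succ', Finset.sum_range_succ']
  have e5 : h (u 0) = h (Blow * c) + h (β1 ^ (l + 1) * c) := by
    rw [hu0]; exact H.qa hq _ _ _ e2
  have e6 : h (u 1) = h ((l + 1) * β2 * c) + h ((l + 1) * β2 * B2 * c) := by
    rw [hu1]
    exact H.qa hq _ K _ (lt_of_le_of_lt (Nat.mul_le_mul_right _ (Nat.mul_le_mul_right _
      (Nat.le_add_left _ _))) h3)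
  have e7 : h (β1 ^ (l + 1) * c + u 1) =
      h ((β1 ^ (l + 1) + (l + 1) * β2) * c) + h ((l + 1) * β2 * B2 * c) := by
    rw [hu1, ← add_assoc, ← add_mul]
    exact H.qa hq _ K _ h3
  rw [tau_sg, e4, e5, e6, off]
  change h ((B1 + β2 * Z) ^ (l + 1) * c) = _
  rw [e3, H.qa hq _ _ _ e2, H.qa hq _ _ _ (hu 1 le_rfl (by omega)), e7, hR]
  abel

/-- the remainder -/
noncomputable def rho (γ : A) (d l x y Z : ℕ) : A :=
  γ * ((E d (x + y * Z) - ∑ n ∈ Finset.range (l + 1), sg ⟨n, (x + y * Z) ^ n⟩) -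
    (E d x * E d y - ∑ n ∈ Finset.range (l + 1), T n x y)) +
  (γ - 1) * (sg ⟨l, (x + y * Z) ^ l⟩ - T l x y)

lemma rho_mem {γ : A} (hγ : γ - 1 ∈ I 1) (d l x y Z : ℕ) (hl : l ≤ d) :
    rho γ d l x y Z ∈ I (l + 1) := by
  refine Submodule.add_mem _ (mul_mem_I' _ (Submodule.sub_mem _ (E_trunc d l _ hl)
    (E_mul_trunc d l x y hl))) ?_
  rw [add_comm]
  exact mul_mem_I hγ (Submodule.sub_mem _ (sg_mem le_rfl) (T_mem l x y))

lemma phase_one (hq : 2 ≤ q) (H : Dig2 q L h) (d : ℕ) (Q : ℕ[X]) (hQ : Q.natDegree ≤ d)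
    (β1 β2 l : ℕ) (γ : A) : ∀ᶠ K : ℕ in atTop,
    tau h Q (γ * E d (1 + β1 * q ^ K + β2 * q ^ ((l + 1) * K))) =
      tau h Q (γ * (E d 1 * E d β1 * E d β2)) +
      off h (β1 ^ (l + 1)) ((l + 1) * β2) (Q.coeff (l + 1)) +
      tau h Q (rho γ d (l + 1) (1 + β1 * q ^ K) β2 (q ^ ((l + 1) * K))) := by
  filter_upwards [sepA hq H d Q hQ β1 (γ * E d β2), collide hq H Q β1 β2 l,
    (Finset.range (l + 1)).eventually_all.2 fun n hn =>
      sepB hq H Q β1 β2 n (l + 1) (Finset.mem_range.1 hn) γ] with K h1 h2 h3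
  set x := 1 + β1 * q ^ K
  set Z := q ^ ((l + 1) * K)
  have e1 : γ * E d (x + β2 * Z) = γ * E d β2 * E d x +
      (γ * ∑ n ∈ Finset.range (l + 1), sg ⟨n, (x + β2 * Z) ^ n⟩ -
        γ * ∑ n ∈ Finset.range (l + 1), T n x β2) +
      (sg ⟨l + 1, (x + β2 * Z) ^ (l + 1)⟩ - T (l + 1) x β2) + rho γ d (l + 1) x β2 Z := by
    rw [rho, Finset.sum_range_succ _ (l + 1), Finset.sum_range_succ _ (l + 1)]
    ring
  have e2 : tau h Q (γ * ∑ n ∈ Finset.range (l + 1), sg ⟨n, (x + β2 * Z) ^ n⟩) =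
      tau h Q (γ * ∑ n ∈ Finset.range (l + 1), T n x β2) := by
    rw [Finset.mul_sum, Finset.mul_sum, map_sum, map_sum]
    exact Finset.sum_congr rfl h3
  rw [e1, map_add, map_add, map_add, map_sub, map_sub, e2, h1, h2,
    show γ * E d β2 * (E d 1 * E d β1) = γ * (E d 1 * E d β1 * E d β2) by ring]
  abel

/-- vectors that can be added, relative to a reference polynomial -/
def W (h : ℕ → B) {ι : Type*} (d : ℕ) (Q : ι → ℕ[X]) (Q0 : ℕ[X]) (e : ℕ) (he : 0 < e)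
    (hB : ∀ x : B, e • x = 0) : AddSubgroup (ι → B) :=
  let S : AddSubmonoid (ι → B) :=
    { carrier := {w | ∀ γ ∈ Gam d, ∃ γ' ∈ Gam d, ∀ i, tau h (Q i) γ' - tau h Q0 γ' =
        tau h (Q i) γ - tau h Q0 γ + w i}
      zero_mem' := fun γ hγ => ⟨γ, hγ, fun i => by simp⟩
      add_mem' := fun {a b} ha hb γ hγ => by
        obtain ⟨γ1, h1, h2⟩ := ha γ hγ
        obtain ⟨γ2, h3, h4⟩ := hb γ1 h1
        exact ⟨γ2, h3, fun i => by rw [h4, h2, Pi.add_apply, add_assoc]⟩ }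
  { S with
    neg_mem' := fun {w} hw => by
      have h1 : -w = (e - 1) • w := by
        ext i
        have := hB (w i)
        obtain ⟨e', rfl⟩ : ∃ e', e = e' + 1 := ⟨e - 1, by omega⟩
        rw [succ_nsmul] at this
        simp only [Pi.neg_apply, Nat.add_sub_cancel, Pi.smul_apply]
        exact (eq_neg_of_add_eq_zero_left this).symm
      rw [h1]
      exact S.nsmul_mem hw _ }

lemma off_mem_W (hq : 2 ≤ q) (H : Dig2 q L h) {ι : Type*} [Finite ι] (d : ℕ) (Q : ι → ℕ[X])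
    (Q0 : ℕ[X]) (e : ℕ) (he : 0 < e) (hB : ∀ x : B, e • x = 0) (hQ : ∀ i, (Q i).natDegree ≤ d)
    (hQ0 : Q0.natDegree ≤ d) (l : ℕ) (hl : l + 1 ≤ d) (h0 : Q0.coeff (l + 1) = 0)
    (hc : ∀ i m, l + 1 + 1 ≤ m → (Q i).coeff m = Q0.coeff m) (β1 β2 : ℕ) :
    (fun i => off h (β1 ^ (l + 1)) ((l + 1) * β2) ((Q i).coeff (l + 1))) ∈
      W h d Q Q0 e he hB := by
  intro γ hγ
  set S := E d 1 * E d β1 * E d β2 with hS
  have hSm : S ∈ Gam d := Submonoid.mul_mem _ (Submonoid.mul_mem _ (E_mem _ _) (E_mem _ _))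
    (E_mem _ _)
  obtain ⟨N, hN⟩ : ∃ N, e * d.factorial = N + 1 :=
    ⟨e * d.factorial - 1, by have := Nat.mul_pos he (Nat.factorial_pos d); omega⟩
  have hγ' : γ * S ^ N ∈ Gam d := Submonoid.mul_mem _ hγ (Submonoid.pow_mem _ hSm _)
  have hpow : ∀ Q' : ℕ[X], Q'.natDegree ≤ d → tau h Q' (γ * S ^ N * S) = tau h Q' γ := by
    intro Q' hQ'
    rw [mul_assoc, ← pow_succ, ← hN]
    exact tau_pow H.zero hQ' e hB γ S (Gam_sub_one hSm)
  obtain ⟨K, h1, h2⟩ := ((eventually_all.2 fun i =>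
    phase_one hq H d (Q i) (hQ i) β1 β2 l (γ * S ^ N)).and
    (phase_one hq H d Q0 hQ0 β1 β2 l (γ * S ^ N))).exists
  refine ⟨_, Submonoid.mul_mem _ hγ' (E_mem d (1 + β1 * q ^ K + β2 * q ^ ((l + 1) * K))),
    fun i => ?_⟩
  rw [h1 i, h2, ← hS, hpow _ (hQ i), hpow _ hQ0, h0,
    tau_congr h (hc i) (rho_mem (Gam_sub_one hγ') d (l + 1) _ _ _ hl)]
  simp only [off, mul_zero, H.zero]
  abel

/-- no nontrivial quotient of `h` is periodic -/
def NonDeg (h : ℕ → B) : Prop :=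
  ∀ C : AddSubgroup B, C ≠ ⊤ → ¬ ∃ T, 0 < T ∧ ∀ n, h (n + T) - h n ∈ C

lemma spanning (hq : 2 ≤ q) (H : Dig2 q L h) (hN : NonDeg h) {ι : Type*} [Fintype ι] (c : ι → ℕ)
    (hc : ∀ i, 0 < c i)
    (hp : ∀ i, ∃ p : ℕ, p.Prime ∧ p ∣ c i ∧ ¬ p ∣ q ∧ ∀ j, j ≠ i → ¬ p ∣ c j)
    (e : ℕ) (he : 0 < e) (hB : ∀ x : B, e • x = 0) (V : AddSubgroup (ι → B))
    (hV : ∀ b, (fun i => off h 1 b (c i)) ∈ V) : V = ⊤ := by
  classical
  let π := QuotientAddGroup.mk' V
  let φ : ι → B →+ (ι → B) ⧸ V := fun i => π.comp (AddMonoidHom.single (fun _ => B) i)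
  have hsum : ∀ w : ι → B, ∑ j, φ j (w j) = π w := by
    intro w
    conv_rhs => rw [← Finset.univ_sum_single w, map_sum]
    rfl
  have hker : ∀ i, (φ i).ker = ⊤ := by
    intro i
    by_contra hne
    obtain ⟨p, hp1, hp2, hp3, hp4⟩ := hp i
    obtain ⟨T, hT, hT'⟩ := indep hq (fun j n => φ j (h n)) (fun j => H.map (φ j)) c i p hp1 (hc i)
      hp2 hp3 hp4 (π fun j => h (1 * c j)) (fun b => by
        rw [hsum (fun j => h ((b + 1) * c j)), hsum (fun j => h (b * c j)), ← map_sub,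
          ← sub_eq_zero, ← map_sub]
        refine (QuotientAddGroup.eq_zero_iff _).2 ?_
        convert hV b using 1
        ext j
        simp only [off, Pi.sub_apply, add_comm b 1]
        abel) e he (fun x => by
        obtain ⟨w, rfl⟩ := QuotientAddGroup.mk'_surjective V x
        rw [← map_nsmul, show e • w = 0 from funext fun j => hB (w j), map_zero])
    exact hN _ hne ⟨T, hT, fun n => by rw [AddMonoidHom.mem_ker, map_sub, hT', sub_self]⟩
  rw [eq_top_iff]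
  intro w _
  refine (QuotientAddGroup.eq_zero_iff _).1 ?_
  change π w = 0
  rw [← hsum]
  exact Finset.sum_eq_zero fun j _ => AddMonoidHom.mem_ker.1 (by rw [hker j]; trivial)

lemma off_scale (h : ℕ → B) (l t b c : ℕ) :
    off h (((l + 1) * t) ^ (l + 1)) ((l + 1) * ((l + 1) ^ l * t ^ (l + 1) * b)) c =
      off h 1 b (((l + 1) * t) ^ (l + 1) * c) := by
  simp only [off]
  rw [show (((l + 1) * t) ^ (l + 1) + (l + 1) * ((l + 1) ^ l * t ^ (l + 1) * b)) * c =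
      (1 + b) * (((l + 1) * t) ^ (l + 1) * c) by rw [mul_pow, pow_succ (l + 1)]; ring,
    show (l + 1) * ((l + 1) ^ l * t ^ (l + 1) * b) * c = b * (((l + 1) * t) ^ (l + 1) * c) by
      rw [mul_pow, pow_succ (l + 1)]; ring, one_mul]

theorem core (hq : 2 ≤ q) (H : Dig2 q L h) (hN : NonDeg h) {ι : Type*} [Fintype ι] (l : ℕ)
    (Q : ι → ℕ[X]) (hQ : ∀ i, (Q i).natDegree ≤ l + 2) (c : ℕ) (hc0 : 0 < c)
    (hc : ∀ i, (Q i).coeff (l + 2) = c) (hpos : ∀ i, 0 < (Q i).coeff (l + 1))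
    (hp : ∀ i, ∃ p : ℕ, p.Prime ∧ p ∣ (Q i).coeff (l + 1) ∧ ¬ p ∣ q ∧ ¬ p ∣ l + 1 ∧
      ∀ j, j ≠ i → ¬ p ∣ (Q j).coeff (l + 1))
    (e : ℕ) (he : 0 < e) (hB : ∀ x : B, e • x = 0) (v : ι → B) (R : ℕ) :
    ∃ y : ℕ, q ^ R ∣ y ∧ ∀ i, h ((Q i).eval y) = v i := by
  have hz : ∀ i m, l + 2 + 1 ≤ m → (Q i).coeff m = 0 := fun i m hm =>
    coeff_eq_zero_of_natDegree_lt (by have := hQ i; omega)
  have h1 : W h (l + 2) Q (monomial (l + 2) c) e he hB = ⊤ := by
    refine spanning hq H hN (fun i => ((l + 1) * 1) ^ (l + 1) * (Q i).coeff (l + 1))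
      (fun i => Nat.mul_pos (by positivity) (hpos i)) (fun i => ?_) e he hB _ (fun b => ?_)
    · obtain ⟨p, hp1, hp2, hp3, hp4, hp5⟩ := hp i
      refine ⟨p, hp1, hp2.mul_left _, hp3, fun j hj hd => ?_⟩
      rcases hp1.dvd_mul.1 hd with hd | hd
      · exact hp4 (by simpa using hp1.dvd_of_dvd_pow hd)
      · exact hp5 j hj hd
    · have := off_mem_W hq H (l + 2) Q (monomial (l + 2) c) e he hB hQ (natDegree_monomial_le _) l
        (by omega) (by rw [coeff_monomial, if_neg (by omega)]) (fun i m hm => by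
          rw [coeff_monomial]
          split_ifs with h
          · rw [← h, hc]
          · exact hz i m (by omega)) ((l + 1) * 1) ((l + 1) ^ l * 1 ^ (l + 1) * b)
      simpa only [off_scale] using this
  obtain ⟨p, hpq, hp1⟩ := Nat.exists_infinite_primes (q + 1)
  let κ : (Unit → B) →+ (ι → B) :=
    { toFun := fun x _ => x (), map_zero' := rfl, map_add' := fun _ _ => rfl }
  have h2 : (W h (l + 2) Q 0 e he hB).comap κ = ⊤ := by
    refine spanning hq H hN (fun _ => ((l + 1 + 1) * p) ^ (l + 1 + 1) * c)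
      (fun _ => Nat.mul_pos (by have := hp1.pos; positivity) hc0)
      (fun _ => ⟨p, hp1, (dvd_pow (dvd_mul_left _ _) (by omega)).mul_right _,
        fun hd => by have := Nat.le_of_dvd (by omega) hd; omega, fun _ hj => absurd rfl hj⟩)
      e he hB _ (fun b => ?_)
    have := off_mem_W hq H (l + 2) Q 0 e he hB hQ (by simp) (l + 1) le_rfl (by simp)
      (fun i m hm => by rw [hz i m hm, coeff_zero]) ((l + 1 + 1) * p)
      ((l + 1 + 1) ^ (l + 1) * p ^ (l + 1 + 1) * b)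
    simp only [off_scale, hc] at this
    exact this
  have h3 : (fun i => v i - (tau h (Q i) 1 - tau h (monomial (l + 2) c) 1)) ∈
      W h (l + 2) Q (monomial (l + 2) c) e he hB := by rw [h1]; trivial
  obtain ⟨γ1, hγ1, h4⟩ := h3 1 (Submonoid.one_mem _)
  have h5 : (fun _ : Unit => - tau h (monomial (l + 2) c) γ1) ∈
      (W h (l + 2) Q 0 e he hB).comap κ := by rw [h2]; trivial
  obtain ⟨γ2, hγ2, h6⟩ := h5 γ1 hγ1
  obtain ⟨y, hy0, hy⟩ := reach hq H (l + 2) R Q hQ γ2 hγ2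
  refine ⟨y, hy0, fun i => ?_⟩
  have e1 := h4 i
  dsimp only at e1
  have e2 : _ = _ + - tau h (monomial (l + 2) c) γ1 := h6 i
  rw [tau_zero_poly H.zero, tau_zero_poly H.zero] at e2
  rw [hy i]
  linear_combination (norm := abel1) e1 + e2

end Pool.Agent.MP_b1aeef_nt.H23
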