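import Pool.Agent.MP_b1aeef_nt.H23.Core
import Pool.Agent.MP_b1aeef_nt.H23.Conv

/-! Reduction of the general case to the core theorem. -/

set_option autoImplicit false

open Filter Polynomial

namespace Pool.Agent.MP_b1aeef_nt.H23

variable {A : Type*} [AddCommGroup A]

lemma hasse_d (P : ℚ[X]) (d : ℕ) (hd : P.natDegree = d) (x : ℚ) :
    (hasseDeriv d P).eval x = P.coeff d := by
  rw [eval_eq_sum_range' (n := 1) (by have := natDegree_hasseDeriv_le P d; omega)]
  simp [hasseDeriv_coeff]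

lemma hasse_d1 (P : ℚ[X]) (l : ℕ) (hd : P.natDegree = l + 1) (x : ℚ) :
    (hasseDeriv l P).eval x = P.coeff l + (l + 1) * P.coeff (l + 1) * x := by
  rw [eval_eq_sum_range' (n := 2) (by have := natDegree_hasseDeriv_le P l; omega)]
  simp [Finset.sum_range_succ, hasseDeriv_coeff, add_comm 1 l]

lemma private_prime {k : ℕ} (q l c D : ℕ) (hq : 0 < q) (hc : 0 < c) (g : Fin k → ℕ)
    (hg : ∀ i, 0 < g i) (N : ℕ) (hN : N = q * (l + 1) * k.factorial * ∏ i, g i) (u : Fin k → ℕ)
    (hu : ∀ i, u i = g i + (l + 2) * c * N)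
    (hlin : ∀ i j : Fin k, D * u j + (l + 2) * c * i = D * u i + (l + 2) * c * j) (i : Fin k) :
    ∃ p : ℕ, p.Prime ∧ p ∣ u i ∧ ¬ p ∣ q ∧ ¬ p ∣ l + 1 ∧ ∀ j, j ≠ i → ¬ p ∣ u j := by
  obtain ⟨t, ht⟩ := Finset.dvd_prod_of_mem g (Finset.mem_univ i)
  have ht0 : 0 < t := by
    have : 0 < ∏ i, g i := Finset.prod_pos fun i _ => hg i
    rw [ht] at this
    exact Nat.pos_of_mul_pos_left this
  set Y := (l + 2) * c * (q * (l + 1) * k.factorial * t) with hY
  have hY0 : 0 < Y := by have := k.factorial_pos; positivity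
  obtain ⟨p, hp1, hp2⟩ := Nat.exists_prime_and_dvd (show 1 + Y ≠ 1 by omega)
  have hpY : ¬ p ∣ Y := fun h => hp1.not_dvd_one ((Nat.dvd_add_left h).1 hp2)
  have hpu : p ∣ u i := by
    rw [hu, hN, ht, show g i + (l + 2) * c * (q * (l + 1) * k.factorial * (g i * t)) =
      g i * (1 + Y) by rw [hY]; ring]
    exact hp2.mul_left _
  refine ⟨p, hp1, hpu, fun h => hpY ?_, fun h => hpY ?_, fun j hj h => hpY ?_⟩
  · exact h.trans ⟨(l + 2) * c * (l + 1) * k.factorial * t, by rw [hY]; ring⟩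
  · exact h.trans ⟨(l + 2) * c * q * k.factorial * t, by rw [hY]; ring⟩
  · have key : ∀ a b : Fin k, (a : ℕ) < b → p ∣ u a → p ∣ u b → p ∣ Y := by
      intro a b hab ha hb
      obtain ⟨s, hs⟩ := Nat.exists_eq_add_of_lt hab
      have h1 := hlin a b
      have h2 : D * u b = D * u a + (l + 2) * c * (s + 1) := by
        rw [hs] at h1
        nlinarith
      have h3 : p ∣ (l + 2) * c * (s + 1) :=
        (Nat.dvd_add_right (ha.mul_left D)).1 (h2 ▸ hb.mul_left D)
      obtain ⟨r, hr⟩ := Nat.dvd_factorial (show 0 < s + 1 by omega)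
        (show s + 1 ≤ k by have := b.2; omega)
      exact h3.trans ⟨q * (l + 1) * r * t, by rw [hY, hr]; ring⟩
    rcases lt_or_gt_of_ne (fun h => hj (Fin.ext h) : (j : ℕ) ≠ i) with hlt | hlt
    · exact key j i hlt h hpu
    · exact key i j hlt hpu h

theorem main [Finite A] (q L : ℕ) (hq : 2 ≤ q) (f : ℕ → A) (H : Dig q L f) (hN : NonDeg f)
    (P : ℚ[X]) (hdeg : 2 ≤ P.natDegree) (a : ℕ → ℕ) (ha : ∀ n : ℕ, (a n : ℚ) = P.eval (n : ℚ))
    (k : ℕ) (w : Fin k → A) : ∃ m : ℕ, ∀ i : Fin k, f (a (m + i)) = w i := by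
  obtain ⟨l, hd⟩ : ∃ l, P.natDegree = l + 2 := ⟨P.natDegree - 2, by omega⟩
  have hP : P ≠ 0 := by rintro rfl; simp at hd
  have hl : 0 < P.coeff (l + 2) := by
    rcases lt_trichotomy 0 (P.coeff (l + 2)) with h | h | h
    · exact h
    · exact absurd (by rw [leadingCoeff, hd, ← h]) (leadingCoeff_ne_zero.2 hP)
    · obtain ⟨x, hx⟩ := (H82.ev_pos (-P) (l + 2) (by rw [natDegree_neg, hd])
        (by rw [coeff_neg]; linarith)).exists
      rw [eval_neg, ← ha] at hx
      have : (0 : ℚ) ≤ a x := by positivity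
      linarith
  obtain ⟨D, hD0, hD⟩ := H82.exists_den P
  have e1 : ∀ᶠ x : ℕ in atTop, ∀ m : Fin (l + 3), 0 < (hasseDeriv m P).eval (x : ℚ) := by
    refine eventually_all.2 fun m => ?_
    obtain ⟨g1, g2⟩ := H82.hasse_top P (l + 2) m hd (by have := m.2; omega) hl
    exact H82.ev_pos _ _ g1 g2
  obtain ⟨x0, hx0⟩ := eventually_atTop.1 e1
  have hQ := fun x : ℕ => H82.exists_nat_poly P a ha D hD (x0 + x)
    (fun m hm => hx0 _ (by omega) ⟨m, by omega⟩)
  choose Q hQ1 hQ2 hQ3 using hQ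
  have hDq : (0 : ℚ) < D := by positivity
  set c := (Q 0).coeff (l + 2) with hcdef
  have hc : (c : ℚ) = (D : ℚ) ^ (l + 2) * P.coeff (l + 2) := by rw [hcdef, hQ2, hasse_d P _ hd]
  have hc0 : 0 < c := by
    have : (0 : ℚ) < c := by rw [hc]; positivity
    exact_mod_cast this
  have hc' : ∀ x, (Q x).coeff (l + 2) = c := fun x => by
    apply Nat.cast_injective (R := ℚ)
    rw [hc, hQ2, hasse_d P _ hd]
  have hpos : ∀ x, 0 < (Q x).coeff (l + 1) := fun x => by
    have h1 := hx0 (x0 + x) (by omega) ⟨l + 1, by omega⟩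
    have h2 : (0 : ℚ) < (Q x).coeff (l + 1) := by rw [hQ2]; exact mul_pos (by positivity) h1
    exact_mod_cast h2
  set N := q * (l + 1) * k.factorial * ∏ i : Fin k, (Q i).coeff (l + 1) with hNdef
  have H2 := H.two (by omega)
  have hN2 : NonDeg (fun n => f (q ^ L * n)) := by
    rintro C hC ⟨T, hT, hT'⟩
    refine hN C hC ⟨T * q ^ L, by positivity, fun n => ?_⟩
    have h1 := period_mod (fun n => f (q ^ L * n)) C T hT' (n + T * q ^ L) n (by
      unfold Nat.ModEq; rw [Nat.add_mul_mod_self_left])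
    have h2 := H.two_sub (by omega) (n + T * q ^ L) n (by
      unfold Nat.ModEq; rw [Nat.add_mul_mod_self_right])
    convert h1 using 1
    linear_combination (norm := abel1) - h2
  obtain ⟨y, ⟨y', hy0⟩, hy⟩ := core hq H2 hN2 l (fun i : Fin k => Q (i + D * N))
    (fun i => hd ▸ hQ1 _) c hc0 (fun i => hc' _) (fun i => hpos _)
    (private_prime q l c D (by omega) hc0 (fun i => (Q i).coeff (l + 1)) (fun i => hpos _) N hNdef
      _ (fun i => by
        apply Nat.cast_injective (R := ℚ)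
        push_cast
        rw [hc, hQ2, hQ2, hasse_d1 P _ hd, hasse_d1 P _ hd]
        push_cast
        ring) (fun i j => by
        apply Nat.cast_injective (R := ℚ)
        push_cast
        rw [hc, hQ2, hQ2, hasse_d1 P _ hd, hasse_d1 P _ hd]
        push_cast
        ring)) (Nat.card A) Nat.card_pos (fun x => card_nsmul_eq_zero')
    (fun i => w i + (f (q ^ L * a (x0 + (i + D * N))) - f (a (x0 + (i + D * N))))) L
  refine ⟨x0 + D * N + D * y, fun i => ?_⟩
  have h1 := hy i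
  rw [hQ3] at h1
  have h2 := H.two_sub (by omega) _ _ (poly_modEq P a ha D hD0 hD (q ^ L) (x0 + (i + D * N)) y')
  rw [show x0 + (i + D * N) + q ^ L * D * y' = x0 + (i + D * N) + D * y by rw [hy0]; ring] at h2
  rw [show x0 + D * N + D * y + i = x0 + (i + D * N) + D * y by ring]
  linear_combination (norm := abel1) h1 - h2

end Pool.Agent.MP_b1aeef_nt.H23
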